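import Pool.Agent.Helper87.RP.Defs

/-!
# MP_4e034d_co : module C2, general position and a large balanced set
-/

namespace Pool.Agent.Helper87.RP

open Finset

variable {V : Type}

/-- The matrices `A + z • B` with `B` invertible are singular for finitely many `z` only. -/
theorem c2_finite {m : ℕ} (A B : Matrix (Fin m) (Fin m) ℝ) (hB : B.det ≠ 0) :
    {z : ℝ | (A + z • B).det = 0}.Finite := by
  have hu : IsUnit B.det := isUnit_iff_ne_zero.2 hB
  set C : Matrix (Fin m) (Fin m) ℝ := -(A * B⁻¹) with hC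
  have key : ∀ z : ℝ, (A + z • B).det = C.charpoly.eval z * B.det := by
    intro z
    have e1 : A + z • B = (Matrix.scalar (Fin m) z - C) * B := by
      rw [hC, sub_neg_eq_add, add_mul, Matrix.mul_assoc, Matrix.nonsing_inv_mul _ hu,
        Matrix.mul_one, add_comm]
      congr 1
      rw [Matrix.scalar_apply, ← Matrix.smul_eq_diagonal_mul]
    rw [e1, Matrix.det_mul, Matrix.eval_charpoly]
  have hfin : {z : ℝ | C.charpoly.IsRoot z}.Finite :=
    Polynomial.finite_setOfPred_isRoot (C.charpoly_monic.ne_zero)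
  refine hfin.subset fun z hz => ?_
  have hz' : (A + z • B).det = 0 := hz
  rw [key] at hz'
  rcases mul_eq_zero.1 hz' with h | h
  · exact h
  · exact absurd h hB

/-- module C2: general position. -/
theorem general_position [Fintype V] [DecidableEq V] {k : ℕ} (G : V → Fin k → ℝ) (η : ℝ)
    (hη : 0 < η) : ∃ F : V → Fin k → ℝ, (∀ u j, |F u j - G u j| < η) ∧
      ∀ (t : Finset V) (w : V → ℝ), t.Nonempty → (∀ u ∈ t, w u ≠ 0) →
        ∑ u ∈ t, w u • F u = 0 → k + 1 ≤ t.card := by
  classical
  set τ : V → ℝ := fun u => ((Fintype.equivFin V u : ℕ) : ℝ) with hτ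
  have hτi : Function.Injective τ := by
    intro u v huv
    have : ((Fintype.equivFin V u : ℕ) : ℝ) = ((Fintype.equivFin V v : ℕ) : ℝ) := huv
    exact (Fintype.equivFin V).injective (Fin.ext (by exact_mod_cast this))
  -- the bad values of z
  let bad : Finset V → Set ℝ := fun t =>
    if h : t.card ≤ k then
      {z : ℝ | ((Matrix.of fun (a b : Fin t.card) => G (t.equivFin.symm a) (Fin.castLE h b)) +
        z • (Matrix.vandermonde fun a : Fin t.card => τ (t.equivFin.symm a))).det = 0}
    else ∅
  have hbad : ∀ t, (bad t).Finite := by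
    intro t
    by_cases h : t.card ≤ k
    · simp only [bad, dif_pos h]
      apply c2_finite
      rw [Matrix.det_vandermonde_ne_zero_iff]
      intro a b hab
      have := hτi hab
      exact t.equivFin.symm.injective (Subtype.ext this)
    · simp only [bad, dif_neg h]
      exact Set.finite_empty
  have hunion : (⋃ t : Finset V, bad t).Finite := Set.finite_iUnion hbad
  -- a bound for the powers
  obtain ⟨M, hM⟩ : ∃ M : ℝ, ∀ (u : V) (j : Fin k), |τ u ^ (j : ℕ)| ≤ M := by
    refine ⟨∑ u : V, ∑ j : Fin k, |τ u ^ (j : ℕ)|, fun u j => ?_⟩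
    calc |τ u ^ (j : ℕ)| ≤ ∑ j : Fin k, |τ u ^ (j : ℕ)| :=
          Finset.single_le_sum (f := fun j : Fin k => |τ u ^ (j : ℕ)|)
            (fun _ _ => abs_nonneg _) (mem_univ j)
      _ ≤ _ := Finset.single_le_sum (f := fun u : V => ∑ j : Fin k, |τ u ^ (j : ℕ)|)
            (fun _ _ => Finset.sum_nonneg fun _ _ => abs_nonneg _) (mem_univ u)
  have hpos : (0 : ℝ) < η / (|M| + 1) := by positivity
  have hinf : (Set.Ioo (0 : ℝ) (η / (|M| + 1)) \ ⋃ t : Finset V, bad t).Nonempty :=
    ((Set.Ioo_infinite hpos).sdiff hunion).nonempty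
  obtain ⟨z, ⟨hz0, hz1⟩, hzb⟩ := hinf
  refine ⟨fun u j => G u j + z * τ u ^ (j : ℕ), fun u j => ?_, ?_⟩
  · have e1 : G u j + z * τ u ^ (j : ℕ) - G u j = z * τ u ^ (j : ℕ) := by ring
    rw [e1, abs_mul, abs_of_pos hz0]
    calc z * |τ u ^ (j : ℕ)| ≤ z * (|M| + 1) := by
          refine mul_le_mul_of_nonneg_left ?_ hz0.le
          have := hM u j
          have h2 := le_abs_self M
          linarith
      _ < η := by
          rwa [lt_div_iff₀ (by positivity)] at hz1
  · intro t w ht hw hsum
    by_contra hcon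
    have hk : t.card ≤ k := by omega
    have hzt : z ∉ bad t := fun h => hzb (Set.mem_iUnion.2 ⟨t, h⟩)
    simp only [bad, dif_pos hk] at hzt
    have hdet : ((Matrix.of fun (a b : Fin t.card) => G (t.equivFin.symm a) (Fin.castLE hk b)) +
        z • (Matrix.vandermonde fun a : Fin t.card => τ (t.equivFin.symm a))).det ≠ 0 := hzt
    have hvec : Matrix.vecMul (fun a : Fin t.card => w (t.equivFin.symm a))
        ((Matrix.of fun (a b : Fin t.card) => G (t.equivFin.symm a) (Fin.castLE hk b)) +
        z • (Matrix.vandermonde fun a : Fin t.card => τ (t.equivFin.symm a))) = 0 := by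
      funext b
      have h1 := congrFun hsum (Fin.castLE hk b)
      simp only [Finset.sum_apply, Pi.smul_apply, smul_eq_mul, Pi.zero_apply,
        Fin.val_castLE] at h1
      simp only [Matrix.vecMul, dotProduct, Matrix.add_apply, Matrix.of_apply,
        Matrix.smul_apply, Matrix.vandermonde_apply, smul_eq_mul, Pi.zero_apply]
      rw [← h1, ← Finset.sum_coe_sort t]
      exact Fintype.sum_equiv t.equivFin.symm _
        (fun u : t => w u * (G u (Fin.castLE hk b) + z * τ u ^ (b : ℕ))) (fun a => rfl)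
    have h0 := Matrix.eq_zero_of_vecMul_eq_zero hdet hvec
    obtain ⟨u, hu⟩ := ht
    have := congrFun h0 (t.equivFin ⟨u, hu⟩)
    simp only [Equiv.symm_apply_apply, Pi.zero_apply] at this
    exact hw u hu this

/-- module C2 (second part): a large balanced set. -/
theorem exists_bal [Fintype V] [DecidableEq V] {s : V → V → ℝ} {S : Finset V} {k : ℕ}
    (h : Idx s S k) : ∃ (t : Finset V) (e : V → ℝ), t ⊆ S ∧ Bal s e t ∧ k + 1 ≤ t.card := by
  obtain ⟨F, _, hF⟩ := general_position (k := k) (fun (_ : V) _ => (0 : ℝ)) 1 one_pos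
  obtain ⟨t, e, w, htS, htn, hb, hw, hsum⟩ := h F
  refine ⟨t, e, htS, hb, hF t (fun u => w u * e u) htn (fun u hu => ?_) hsum⟩
  have h1 := (hw u hu).ne'
  rcases hb.1 u hu with h2 | h2
  · rw [h2]; simpa using h1
  · rw [h2]; simpa using h1

end Pool.Agent.Helper87.RP
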